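import Pool.Agent.H74.TSD.Targets

set_option autoImplicit false

open MeasureTheory Set Metric Filter
open scoped ENNReal Pointwise Topology

namespace Pool.Agent.H58.TSD.GC

open Pool.Agent.H74.TSD Pool.Agent.H73.TS

theorem ev_continuous (p : ℝ × ℝ) : Continuous (ev p) := by
  unfold ev; fun_prop

theorem wd_continuous (u : ℝ × ℝ) : Continuous (wd u) := by
  unfold wd; fun_prop

theorem abs_comb {a b x y e : ℝ} (ha : 0 ≤ a) (hb : 0 ≤ b) (hab : a + b = 1) (hx : |x| ≤ e)
    (hy : |y| ≤ e) : |a * x + b * y| ≤ e := by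
  calc |a * x + b * y| ≤ |a * x| + |b * y| := abs_add_le _ _
    _ = a * |x| + b * |y| := by rw [abs_mul, abs_mul, abs_of_nonneg ha, abs_of_nonneg hb]
    _ ≤ a * e + b * e := by gcongr
    _ = e := by rw [← add_mul, hab, one_mul]

theorem pf_GC : T_GC := by
  rintro d γ U M c hM hc hU hγ ⟨i0, j0, hD⟩
  refine ⟨{x | (∀ p ∈ U, |ev p x| ≤ 1 / 2) ∧ ∀ i, |wd (γ i) x| ≤ c / (2 * M)},
    ⟨?_, ?_, ?_, ?_, ?_⟩, ?_, ?_⟩
  · have hcl : IsClosed {x : ℝ × ℝ | (∀ p ∈ U, |ev p x| ≤ 1 / 2) ∧
        ∀ i, |wd (γ i) x| ≤ c / (2 * M)} := by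
      have e1 : {x : ℝ × ℝ | (∀ p ∈ U, |ev p x| ≤ 1 / 2) ∧ ∀ i, |wd (γ i) x| ≤ c / (2 * M)} =
          (⋂ p ∈ U, {x | |ev p x| ≤ 1 / 2}) ∩ ⋂ i, {x | |wd (γ i) x| ≤ c / (2 * M)} := by
        ext x
        constructor
        · rintro ⟨h1, h2⟩
          refine ⟨?_, ?_⟩
          · simp only [mem_iInter]
            exact fun p hp => h1 p hp
          · simp only [mem_iInter]
            exact fun i => h2 i
        · rintro ⟨h1, h2⟩
          simp only [mem_iInter] at h1 h2
          exact ⟨fun p hp => h1 p hp, fun i => h2 i⟩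
      rw [e1]
      refine IsClosed.inter ?_ ?_
      · exact isClosed_biInter fun p _ =>
          isClosed_le (ev_continuous p).abs continuous_const
      · exact isClosed_iInter fun i => isClosed_le (wd_continuous (γ i)).abs continuous_const
    have hK : IsCompact ((fun s : ℝ × ℝ => (wd (γ i0) (γ j0))⁻¹ • (s.2 • γ j0 - s.1 • γ i0)) ''
        (Icc (-(c / (2 * M))) (c / (2 * M)) ×ˢ Icc (-(c / (2 * M))) (c / (2 * M)))) :=
      (isCompact_Icc.prod isCompact_Icc).image (by fun_prop)
    refine hK.of_isClosed_subset hcl ?_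
    rintro x ⟨_, hx⟩
    refine ⟨(wd (γ j0) x, wd (γ i0) x), ⟨?_, ?_⟩, ?_⟩
    · exact abs_le.1 (hx j0)
    · exact abs_le.1 (hx i0)
    · have hD' : (γ i0).1 * (γ j0).2 - (γ i0).2 * (γ j0).1 ≠ 0 := hD
      apply Prod.ext
      · simp only [wd, Prod.smul_fst, Prod.fst_sub, smul_eq_mul]
        field_simp
        ring
      · simp only [wd, Prod.smul_snd, Prod.snd_sub, smul_eq_mul]
        field_simp
        ring
  · intro x hx y hy a b ha hb hab
    refine ⟨fun p hp => ?_, fun i => ?_⟩
    · have e : ev p (a • x + b • y) = a * ev p x + b * ev p y := by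
        simp only [ev, Prod.fst_add, Prod.smul_fst, Prod.snd_add, Prod.smul_snd, smul_eq_mul]
        ring
      rw [e]
      exact abs_comb ha hb hab (hx.1 p hp) (hy.1 p hp)
    · have e : wd (γ i) (a • x + b • y) = a * wd (γ i) x + b * wd (γ i) y := by
        simp only [wd, Prod.fst_add, Prod.smul_fst, Prod.snd_add, Prod.smul_snd, smul_eq_mul]
        ring
      rw [e]
      exact abs_comb ha hb hab (hx.2 i) (hy.2 i)
  · rintro x ⟨h1, h2⟩
    refine ⟨fun p hp => ?_, fun i => ?_⟩
    · have e : ev p (-x) = - ev p x := by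
        simp only [ev, Prod.fst_neg, Prod.snd_neg]
        ring
      rw [e, abs_neg]
      exact h1 p hp
    · have e : wd (γ i) (-x) = - wd (γ i) x := by
        simp only [wd, Prod.fst_neg, Prod.snd_neg]
        ring
      rw [e, abs_neg]
      exact h2 i
  · exact fun p hp x hx => hx.1 p hp
  · intro p hp
    have hM2 : 0 < 1 / (2 * M) := by positivity
    refine ⟨fun q hq => ?_, fun i => ?_⟩
    · have e : ev q ((1 / (2 * M)) • rot p) = (1 / (2 * M)) * wd p q := by
        simp only [ev, wd, rot, Prod.smul_fst, Prod.smul_snd, smul_eq_mul]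
        ring
      rw [e, abs_mul, abs_of_pos hM2]
      calc 1 / (2 * M) * |wd p q| ≤ 1 / (2 * M) * M := by
            have := hU p hp q hq
            gcongr
        _ = 1 / 2 := by field_simp
    · have e : wd (γ i) ((1 / (2 * M)) • rot p) = (1 / (2 * M)) * ev p (γ i) := by
        simp only [ev, wd, rot, Prod.smul_fst, Prod.smul_snd, smul_eq_mul]
        ring
      rw [e, abs_mul, abs_of_pos hM2]
      calc 1 / (2 * M) * |ev p (γ i)| ≤ 1 / (2 * M) * c := by
            have := hγ p hp i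
            gcongr
        _ = c / (2 * M) := by ring
  · refine ⟨0, fun p hp => ?_, fun i => ?_⟩
    · have e : ev p 0 = 0 := by simp [ev]
      rw [e, abs_zero]
      norm_num
    · have e : wd (γ i) 0 = 0 := by simp [wd]
      rw [e, abs_zero]
      positivity
  · exact fun i x hx => hx.2 i

end Pool.Agent.H58.TSD.GC
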