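import Pool.Agent.H74.TSD.Targets

set_option autoImplicit false

open MeasureTheory Set Metric Filter
open scoped ENNReal Pointwise Topology

namespace Pool.Agent.H58.TSD.LF

open Pool.Agent.H74.TSD Pool.Agent.H73.TS

variable {d : ℕ}

/-- The upper corner of the box belonging to `s`. -/
def up (b : Fin d → ℝ) (s : Finset (Fin d)) : Fin d → ℝ := fun i => if i ∈ s then b i else 0

/-- The zonotope belonging to `s`. -/
def Z (γ : Fin d → ℝ × ℝ) (b : Fin d → ℝ) (s : Finset (Fin d)) : Set (ℝ × ℝ) :=
  pr γ '' Icc 0 (up b s)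

theorem pr_lin (γ : Fin d → ℝ × ℝ) : IsLinearMap ℝ (pr γ) := by
  constructor
  · intro x y
    simp only [pr, Pi.add_apply, add_smul, Finset.sum_add_distrib]
  · intro c x
    simp only [pr, Pi.smul_apply, smul_eq_mul, Finset.smul_sum, mul_smul]

theorem pr_cont (γ : Fin d → ℝ × ℝ) : Continuous (pr γ) := by
  unfold pr
  fun_prop

theorem wd_pr (γ : Fin d → ℝ × ℝ) (u : ℝ × ℝ) (x : Fin d → ℝ) :
    wd u (pr γ x) = ∑ i, x i * wd u (γ i) := by
  simp only [wd, pr, Prod.fst_sum, Prod.snd_sum, Prod.smul_fst, Prod.smul_snd, smul_eq_mul]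
  rw [Finset.mul_sum, Finset.mul_sum, ← Finset.sum_sub_distrib]
  exact Finset.sum_congr rfl fun i _ => by ring

theorem Z_empty (γ : Fin d → ℝ × ℝ) (b : Fin d → ℝ) : Z γ b ∅ = 0 := by
  have e : up b ∅ = 0 := by
    funext i
    simp [up]
  rw [Z, e, Icc_self, image_singleton]
  have : pr γ 0 = 0 := by simp [pr]
  rw [this]
  rfl

theorem Z_insert (γ : Fin d → ℝ × ℝ) (b : Fin d → ℝ) (hb : ∀ i, 0 ≤ b i)
    (s : Finset (Fin d)) (k : Fin d) (hk : k ∉ s) :
    Z γ b (insert k s) = Z γ b s + seg (b k • γ k) := by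
  ext x
  constructor
  · rintro ⟨a, ⟨ha0, ha1⟩, rfl⟩
    have e : a = Function.update a k 0 + Pi.single k (a k) := by
      funext i
      by_cases hi : i = k
      · subst hi
        simp
      · simp [Function.update_of_ne hi, Pi.single_eq_of_ne hi]
    have hup : a k ≤ b k := by
      have := ha1 k
      simpa [up] using this
    have e2 : pr γ (Pi.single k (a k)) = a k • γ k := by
      unfold pr
      rw [Finset.sum_eq_single k]
      · simp
      · intro i _ hi
        simp [Pi.single_eq_of_ne hi]
      · simp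
    refine ⟨pr γ (Function.update a k 0), ⟨Function.update a k 0, ⟨?_, ?_⟩, rfl⟩,
      a k • γ k, ?_, ?_⟩
    · intro i
      by_cases hi : i = k
      · subst hi
        simp
      · rw [Function.update_of_ne hi]
        exact ha0 i
    · intro i
      by_cases hi : i = k
      · subst hi
        simp [up, hk]
      · rw [Function.update_of_ne hi]
        have := ha1 i
        simpa [up, hi] using this
    · rcases (hb k).eq_or_lt with h0 | hpos
      · refine ⟨0, le_rfl, zero_le_one, ?_⟩
        have : a k = 0 := le_antisymm (h0 ▸ hup) (ha0 k)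
        rw [this]
        simp
      · refine ⟨a k / b k, div_nonneg (ha0 k) hpos.le, (div_le_one hpos).2 hup, ?_⟩
        rw [smul_smul, div_mul_cancel₀ _ hpos.ne']
    · show pr γ (Function.update a k 0) + a k • γ k = pr γ a
      conv_rhs => rw [e]
      rw [(pr_lin γ).map_add, e2]
  · rintro ⟨_, ⟨a, ⟨ha0, ha1⟩, rfl⟩, _, ⟨t, ht0, ht1, rfl⟩, rfl⟩
    have hak : a k = 0 := by
      have h1 := ha1 k
      have h0 := ha0 k
      simp only [up, hk, if_false] at h1
      exact le_antisymm h1 h0
    refine ⟨a + Pi.single k (t * b k), ⟨?_, ?_⟩, ?_⟩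
    · intro i
      by_cases hi : i = k
      · subst hi
        simp only [Pi.zero_apply, Pi.add_apply, Pi.single_eq_same, hak, zero_add]
        exact mul_nonneg ht0 (hb _)
      · simp only [Pi.add_apply, Pi.single_eq_of_ne hi, add_zero]
        exact ha0 i
    · intro i
      by_cases hi : i = k
      · subst hi
        simp only [Pi.add_apply, Pi.single_eq_same, hak, zero_add, up, Finset.mem_insert_self,
          if_true]
        exact mul_le_of_le_one_left (hb _) ht1
      · simp only [Pi.add_apply, Pi.single_eq_of_ne hi, add_zero]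
        have := ha1 i
        simpa [up, hi] using this
    · rw [(pr_lin γ).map_add]
      have e2 : pr γ (Pi.single k (t * b k)) = (t * b k) • γ k := by
        unfold pr
        rw [Finset.sum_eq_single k]
        · simp
        · intro i _ hi
          simp [Pi.single_eq_of_ne hi]
        · simp
      rw [e2, mul_smul]

theorem Z_cpt (γ : Fin d → ℝ × ℝ) (b : Fin d → ℝ) (s : Finset (Fin d)) :
    IsCompact (Z γ b s) := isCompact_Icc.image (pr_cont γ)

theorem Z_cvx (γ : Fin d → ℝ × ℝ) (b : Fin d → ℝ) (s : Finset (Fin d)) :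
    Convex ℝ (Z γ b s) := (convex_Icc _ _).is_linear_image (pr_lin γ)

theorem one_add_sum_le (b : Fin d → ℝ) (hb : ∀ i, 0 ≤ b i) (s : Finset (Fin d)) :
    1 + ∑ i ∈ s, b i ≤ ∏ i ∈ s, (1 + b i) := by
  induction s using Finset.induction_on with
  | empty => simp
  | insert k s hk ih =>
    rw [Finset.sum_insert hk, Finset.prod_insert hk]
    have h0 : 0 ≤ ∑ i ∈ s, b i := Finset.sum_nonneg fun i _ => hb i
    nlinarith [hb k, mul_nonneg (hb k) h0, mul_le_mul_of_nonneg_left ih (hb k)]

theorem pf_LF (h : T_A9) : T_LF := by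
  intro d γ M c C b hM hc hC hCv _ hw hγ hb
  have key : ∀ s : Finset (Fin d),
      M * (ar (Z γ b s + C) - ar C) ≤ c * (∏ i ∈ s, (1 + b i) - 1) := by
    intro s
    induction s using Finset.induction_on with
    | empty => simp [Z_empty]
    | insert k s hk ih =>
      have e1 : Z γ b (insert k s) + C = (Z γ b s + C) + seg (b k • γ k) := by
        rw [Z_insert γ b hb s k hk, add_right_comm]
      have hsum0 : 0 ≤ ∑ i ∈ s, b i := Finset.sum_nonneg fun i _ => hb i
      have hcM : 0 ≤ c / M := div_nonneg hc hM.le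
      have hbound : ar ((Z γ b s + C) + seg (b k • γ k)) ≤
          ar (Z γ b s + C) + b k * (c / M * (1 + ∑ i ∈ s, b i)) := by
        refine h _ _ _ ((Z_cpt γ b s).add hC) ((Z_cvx γ b s).add hCv)
          (mul_nonneg (hb k) (mul_nonneg hcM (by linarith))) ?_
        rintro _ ⟨_, ⟨a, ⟨ha0, ha1⟩, rfl⟩, u, hu, rfl⟩ _ ⟨_, ⟨a', ⟨ha0', ha1'⟩, rfl⟩, u', hu', rfl⟩
        have e2 : ∀ (z v : ℝ × ℝ), wd (b k • γ k) (z + v) = b k * (wd (γ k) z + wd (γ k) v) := by
          intro z v
          simp only [wd, Prod.smul_fst, Prod.smul_snd, smul_eq_mul, Prod.fst_add, Prod.snd_add]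
          ring
        show wd (b k • γ k) (pr γ a + u) - wd (b k • γ k) (pr γ a' + u') ≤ _
        rw [e2, e2, ← mul_sub]
        refine mul_le_mul_of_nonneg_left ?_ (hb k)
        have hu1 := abs_le.1 (hw k u hu)
        have hu2 := abs_le.1 (hw k u' hu')
        have e3 : wd (γ k) (pr γ a) - wd (γ k) (pr γ a') ≤ c / M * ∑ i ∈ s, b i := by
          rw [wd_pr, wd_pr, ← Finset.sum_sub_distrib]
          have e4 : ∑ i, (a i * wd (γ k) (γ i) - a' i * wd (γ k) (γ i)) =
              ∑ i ∈ s, (a i * wd (γ k) (γ i) - a' i * wd (γ k) (γ i)) := by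
            symm
            refine Finset.sum_subset (Finset.subset_univ s) ?_
            intro i _ hi
            have h1 : a i = 0 := by
              have h1 := ha1 i
              simp only [up, hi, if_false] at h1
              exact le_antisymm h1 (ha0 i)
            have h2 : a' i = 0 := by
              have h1 := ha1' i
              simp only [up, hi, if_false] at h1
              exact le_antisymm h1 (ha0' i)
            rw [h1, h2]
            ring
          rw [e4, Finset.mul_sum]
          refine Finset.sum_le_sum fun i hi => ?_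
          have h1 : a i ≤ b i := by
            have := ha1 i
            simpa only [up, hi, if_true] using this
          have h2 : a' i ≤ b i := by
            have := ha1' i
            simpa only [up, hi, if_true] using this
          have h3 : 0 ≤ a i := ha0 i
          have h4 : 0 ≤ a' i := ha0' i
          have h5 : |wd (γ k) (γ i)| ≤ c / M := by
            rw [le_div_iff₀ hM, mul_comm]
            exact hγ k i
          have h6 : |a i - a' i| ≤ b i := abs_le.2 ⟨by linarith, by linarith⟩
          calc a i * wd (γ k) (γ i) - a' i * wd (γ k) (γ i)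
              = (a i - a' i) * wd (γ k) (γ i) := by ring
            _ ≤ |(a i - a' i) * wd (γ k) (γ i)| := le_abs_self _
            _ = |a i - a' i| * |wd (γ k) (γ i)| := abs_mul _ _
            _ ≤ b i * (c / M) := mul_le_mul h6 h5 (abs_nonneg _) (hb i)
            _ = c / M * b i := mul_comm _ _
        have e5 : c / (2 * M) + c / (2 * M) = c / M := by
          field_simp
          ring
        calc wd (γ k) (pr γ a) + wd (γ k) u - (wd (γ k) (pr γ a') + wd (γ k) u')
            = (wd (γ k) (pr γ a) - wd (γ k) (pr γ a')) + (wd (γ k) u - wd (γ k) u') := by ring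
          _ ≤ c / M * ∑ i ∈ s, b i + (c / (2 * M) + c / (2 * M)) := by
              refine add_le_add e3 ?_
              linarith
          _ = c / M * (1 + ∑ i ∈ s, b i) := by rw [e5]; ring
      rw [e1, Finset.prod_insert hk]
      have hprod : 1 + ∑ i ∈ s, b i ≤ ∏ i ∈ s, (1 + b i) := one_add_sum_le b hb s
      have e6 : M * (b k * (c / M * (1 + ∑ i ∈ s, b i))) = b k * c * (1 + ∑ i ∈ s, b i) := by
        field_simp
      have e7 : b k * c * (1 + ∑ i ∈ s, b i) ≤ b k * c * ∏ i ∈ s, (1 + b i) :=
        mul_le_mul_of_nonneg_left hprod (mul_nonneg (hb k) hc)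
      have e8 : M * ar ((Z γ b s + C) + seg (b k • γ k)) ≤
          M * (ar (Z γ b s + C) + b k * (c / M * (1 + ∑ i ∈ s, b i))) :=
        mul_le_mul_of_nonneg_left hbound hM.le
      have e9 : c * ((1 + b k) * ∏ i ∈ s, (1 + b i) - 1) =
        c * (∏ i ∈ s, (1 + b i) - 1) + b k * c * ∏ i ∈ s, (1 + b i) := by ring
      rw [e9]
      nlinarith [ih, e6, e7, e8]
  have e : {x | ∃ a : Fin d → ℝ, (∀ i, 0 ≤ a i ∧ a i ≤ b i) ∧ x = pr γ a} =
      Z γ b Finset.univ := by
    ext x
    constructor
    · rintro ⟨a, ha, rfl⟩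
      refine ⟨a, ⟨fun i => (ha i).1, fun i => ?_⟩, rfl⟩
      simp only [up, Finset.mem_univ, if_true]
      exact (ha i).2
    · rintro ⟨a, ⟨h0, h1⟩, rfl⟩
      refine ⟨a, fun i => ⟨h0 i, ?_⟩, rfl⟩
      have := h1 i
      simpa only [up, Finset.mem_univ, if_true] using this
  rw [e]
  exact key Finset.univ

end Pool.Agent.H58.TSD.LF
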